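import Pool.Agent.W751.CD.Stm

/-! # Coarse density of hyperbolicity: the choice of the parameters -/

set_option autoImplicit false

open Polynomial Filter Topology MeasureTheory

namespace W973.CD

open Pool.Agent.W751.CD

/-- finitely many small discs do not cover a disc -/
theorem avoid {N : ℕ} (z : Fin N → ℂ) (r δ : ℝ) (hr : 0 < r) (hδ : 0 ≤ δ)
    (h : (N : ℝ) * δ ^ 2 < r ^ 2) : ∃ β : ℂ, ‖β‖ ≤ r ∧ ∀ i, δ ≤ ‖z i - β‖ := by
  by_contra hcon
  push Not at hcon
  have hsub : Metric.closedBall (0 : ℂ) r ⊆ ⋃ i, Metric.ball (z i) δ := by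
    intro β hβ
    obtain ⟨i, hi⟩ := hcon β (by simpa using hβ)
    refine Set.mem_iUnion.2 ⟨i, ?_⟩
    rw [Metric.mem_ball, dist_comm, dist_eq_norm]
    exact hi
  have h1 : volume (Metric.closedBall (0 : ℂ) r) ≤ ∑ i, volume (Metric.ball (z i) δ) :=
    (measure_mono hsub).trans (measure_iUnion_fintype_le volume _)
  simp only [Complex.volume_ball, Complex.volume_closedBall, Finset.sum_const, Finset.card_univ,
    Fintype.card_fin, nsmul_eq_mul] at h1
  have h2 : ENNReal.ofReal (r ^ 2) * (NNReal.pi : ENNReal) ≤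
      ENNReal.ofReal ((N : ℝ) * δ ^ 2) * (NNReal.pi : ENNReal) := by
    rw [ENNReal.ofReal_mul (by positivity), ENNReal.ofReal_pow hr.le, ENNReal.ofReal_pow hδ,
      ENNReal.ofReal_natCast, mul_assoc]
    exact h1
  have h3 : ENNReal.ofReal (r ^ 2) ≤ ENNReal.ofReal ((N : ℝ) * δ ^ 2) := by
    rw [ENNReal.mul_le_mul_iff_left (by
      rw [Ne, ENNReal.coe_eq_zero]
      exact NNReal.pi_ne_zero) ENNReal.coe_ne_top] at h2
    exact h2
  rw [ENNReal.ofReal_le_ofReal_iff (by positivity)] at h3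
  linarith

theorem EX_holds : S_EX := by
  intro hNU hCONJ hKAP N hN z M ε hM hz hε1 hε
  obtain ⟨hann, -, -⟩ := hNU
  have hN2 : (2 : ℝ) ≤ N := by exact_mod_cast hN
  have hN0 : (0 : ℝ) < N := by linarith
  set sN : ℝ := Real.sqrt N with hsN
  have hsN0 : 0 < sN := Real.sqrt_pos.2 hN0
  have hsq : sN ^ 2 = N := Real.sq_sqrt hN0.le
  set h : ℝ := Real.log (N * M) with hh
  have hNM : (2 : ℝ) ≤ N * M := by nlinarith
  have hlog : (0.69 : ℝ) < h := by
    have h1 : Real.log 2 ≤ h := Real.log_le_log (by norm_num) hNM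
    have h2 := Real.log_two_gt_d9
    linarith
  have hh0 : 0 < h := by linarith
  have hεs : 500 * h ≤ ε * sN := by
    rwa [div_le_iff₀ hsN0] at hε
  have hε345 : 345 ≤ ε * sN := by linarith
  have hε0 : 0 < ε := by
    by_contra hneg
    push Not at hneg
    nlinarith
  have hs345 : 345 ≤ sN := by nlinarith
  set δ : ℝ := ε / (4 * sN) with hδ
  have hδ0 : 0 < δ := by positivity
  -- (1) the translation
  obtain ⟨β, hβ1, hβ2⟩ := avoid z (ε / 2) δ (by positivity) hδ0.le (by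
    rw [hδ, div_pow, mul_pow, hsq]
    have : (N : ℝ) * (ε ^ 2 / (4 ^ 2 * N)) = ε ^ 2 / 16 := by
      field_simp
      norm_num
    rw [this]
    nlinarith [sq_nonneg ε, mul_pos hε0 hε0])
  set z' : Fin N → ℂ := fun i => z i - β with hz'
  have hz'1 : ∀ i, δ ≤ ‖z' i‖ := hβ2
  have hz'2 : ∀ i, ‖z' i‖ ≤ 2 * M := by
    intro i
    have h1 := norm_sub_le (z i) β
    have h2 := hz i
    have h3 : ‖z' i‖ = ‖z i - β‖ := rfl
    linarith
  -- (2) the bound for the bad parameters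
  set L : ℝ := 2 * M / δ with hL
  have hL0 : 0 < L := by positivity
  have hzz : ∀ i j, ‖z' i‖ ≤ L * ‖z' j‖ := by
    intro i j
    calc ‖z' i‖ ≤ 2 * M := hz'2 i
      _ = L * δ := by rw [hL, div_mul_cancel₀ _ hδ0.ne']
      _ ≤ L * ‖z' j‖ := mul_le_mul_of_nonneg_left (hz'1 j) hL0.le
  have hz0 : ∀ i, z' i ≠ 0 := by
    intro i hi
    have := hz'1 i
    rw [hi, norm_zero] at this
    linarith
  have hNL : (N : ℝ) * L ≤ (N * M) ^ 2 := by
    have e1 : (N : ℝ) * L = 8 * M * N ^ 2 / (ε * sN) := by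
      rw [hL, hδ, ← hsq]
      field_simp
      ring
    rw [e1, div_le_iff₀ (by positivity)]
    have h1 : 8 * M * (N : ℝ) ^ 2 ≤ M * N ^ 2 * (ε * sN) := by
      have : (0 : ℝ) ≤ M * N ^ 2 := by positivity
      nlinarith
    have h2 : M * (N : ℝ) ^ 2 ≤ (N * M) ^ 2 := by
      have : (0 : ℝ) ≤ N ^ 2 := by positivity
      nlinarith [mul_nonneg this (by linarith : (0 : ℝ) ≤ M), mul_nonneg this
        (mul_nonneg (by linarith : (0 : ℝ) ≤ M) (by linarith : (0 : ℝ) ≤ M - 1))]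
    calc 8 * M * (N : ℝ) ^ 2 ≤ M * N ^ 2 * (ε * sN) := h1
      _ ≤ (N * M) ^ 2 * (ε * sN) := mul_le_mul_of_nonneg_right h2 (by positivity)
  have hlogNL : Real.log (N * L) ≤ 2 * h := by
    calc Real.log (N * L) ≤ Real.log ((N * M) ^ 2) := Real.log_le_log (by positivity) hNL
      _ = 2 * h := by rw [Real.log_pow, hh]; norm_num
  have hbad : nu {a : ℂ | ¬ Hyp (C a * P z')} ≤ ENNReal.ofReal (720 * sN * h) := by
    refine (hKAP N hN z' L hz0 hzz).2.trans (ENNReal.ofReal_le_ofReal ?_)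
    rw [← hsN]
    nlinarith
  -- (3) a good parameter
  set X : ℝ := ((N : ℝ) - 1) * ε / 4 with hX
  have hX0 : 0 < X := by
    rw [hX]
    have : (0 : ℝ) < N - 1 := by linarith
    positivity
  have hN345 : (345 : ℝ) ^ 2 ≤ N := by
    rw [← hsq]
    exact pow_le_pow_left₀ (by norm_num) hs345 2
  have hcmp : 720 * sN * h < 2 * Real.pi * X := by
    have hpi := Real.pi_gt_d2
    have h1 : 500 * h * ((N : ℝ) - 1) ≤ ε * sN * (N - 1) :=
      mul_le_mul_of_nonneg_right hεs (by linarith)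
    -- multiply by sN
    have h2 : 720 * sN * h * sN < 2 * Real.pi * X * sN := by
      have e1 : 720 * sN * h * sN = 720 * N * h := by rw [← hsq]; ring
      have e2 : 2 * Real.pi * X * sN = Real.pi / 2 * (ε * sN * (N - 1)) := by rw [hX]; ring
      rw [e1, e2]
      have h3 : Real.pi / 2 * (500 * h * ((N : ℝ) - 1)) ≤ Real.pi / 2 * (ε * sN * (N - 1)) :=
        mul_le_mul_of_nonneg_left h1 (by positivity)
      have h4 : (3.14 : ℝ) / 2 * (500 * h * ((N : ℝ) - 1)) ≤
          Real.pi / 2 * (500 * h * ((N : ℝ) - 1)) := by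
        apply mul_le_mul_of_nonneg_right (by linarith)
        have : (0 : ℝ) ≤ N - 1 := by linarith
        positivity
      have h5 : 720 * (N : ℝ) * h < (3.14 : ℝ) / 2 * (500 * h * ((N : ℝ) - 1)) := by
        have : 0 < h * (65 * (N : ℝ) - 785) := mul_pos hh0 (by linarith)
        nlinarith
      linarith
    exact lt_of_mul_lt_mul_right h2 hsN0.le
  obtain ⟨a, ha1, ha2, ha3⟩ : ∃ a : ℂ, 1 ≤ ‖a‖ ∧ ‖a‖ ≤ Real.exp X ∧ Hyp (C a * P z') := by
    by_contra hcon
    push Not at hcon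
    have hsub : {a : ℂ | 1 ≤ ‖a‖ ∧ ‖a‖ ≤ Real.exp X} ⊆ {a : ℂ | ¬ Hyp (C a * P z')} :=
      fun a ha => hcon a ha.1 ha.2
    have h1 := (measure_mono hsub).trans hbad
    rw [hann 1 (Real.exp X) one_pos (Real.one_le_exp hX0.le), div_one, Real.log_exp,
      ENNReal.ofReal_le_ofReal_iff (by positivity)] at h1
    linarith
  -- (4) the root
  have ha0 : a ≠ 0 := by
    intro h0
    rw [h0, norm_zero] at ha1
    linarith
  have hN1 : (0 : ℝ) < (N : ℝ) - 1 := by linarith
  have hN1c : ((N - 1 : ℕ) : ℂ) = ((((N : ℝ) - 1 : ℝ)) : ℂ) := by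
    rw [Nat.cast_sub (by omega : 1 ≤ N)]
    push_cast
    rfl
  set ζ : ℂ := Complex.log a / ((((N : ℝ) - 1 : ℝ)) : ℂ) with hζ
  set κ : ℂ := Complex.exp ζ with hκ
  have hκ0 : κ ≠ 0 := Complex.exp_ne_zero _
  have hκp : κ ^ (N - 1) = a := by
    rw [hκ, ← Complex.exp_nat_mul, hζ, hN1c, mul_div_cancel₀ _ (by
      rw [Ne, Complex.ofReal_eq_zero]
      exact hN1.ne')]
    exact Complex.exp_log ha0
  have hlogn : ‖Complex.log a‖ ≤ X + Real.pi := by
    refine (Complex.norm_le_abs_re_add_abs_im _).trans ?_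
    have h1 : |(Complex.log a).re| ≤ X := by
      rw [Complex.log_re, abs_of_nonneg (Real.log_nonneg ha1)]
      calc Real.log ‖a‖ ≤ Real.log (Real.exp X) := Real.log_le_log (by linarith) ha2
        _ = X := Real.log_exp X
    have h2 : |(Complex.log a).im| ≤ Real.pi := by
      rw [Complex.log_im]
      exact Complex.abs_arg_le_pi a
    linarith
  have hζn : ‖ζ‖ ≤ ε / 2 := by
    rw [hζ, norm_div, Complex.norm_real, Real.norm_of_nonneg hN1.le, div_le_iff₀ hN1]
    have hpi := Real.pi_lt_d2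
    have h1 : Real.pi ≤ ε / 4 * ((N : ℝ) - 1) := by
      -- multiply by sN
      have h2 : Real.pi * sN ≤ ε / 4 * ((N : ℝ) - 1) * sN := by
        have e1 : ε / 4 * ((N : ℝ) - 1) * sN = (ε * sN) / 4 * (N - 1) := by ring
        rw [e1]
        have h3 : 345 / 4 * ((N : ℝ) - 1) ≤ (ε * sN) / 4 * (N - 1) :=
          mul_le_mul_of_nonneg_right (by linarith) hN1.le
        have h4 : sN * 345 ≤ N := by
          rw [← hsq]
          nlinarith
        have h5 : Real.pi * sN ≤ 3.15 * sN := mul_le_mul_of_nonneg_right (by linarith) hsN0.le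
        nlinarith
      exact le_of_mul_le_mul_right h2 hsN0
    rw [hX] at hlogn
    linarith
  have hκn : ‖κ - 1‖ ≤ ε := by
    have h1 : ‖ζ‖ ≤ 1 := by linarith
    have h2 := Complex.norm_exp_sub_one_sub_id_le h1
    have h3 : κ - 1 = (Complex.exp ζ - 1 - ζ) + ζ := by rw [hκ]; ring
    rw [h3]
    refine (norm_add_le _ _).trans ?_
    have h4 : ‖ζ‖ ^ 2 ≤ (ε / 2) ^ 2 := pow_le_pow_left₀ (norm_nonneg _) hζn 2
    nlinarith
  have hhyp : Hyp (P fun i => κ * z' i) := by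
    have h1 := (hCONJ N (by omega) z' 1 κ hκ0).2 (by rw [one_mul, hκp]; exact ha3)
    rwa [C_1, one_mul] at h1
  refine ⟨κ, -κ * β, hκn, ?_, ?_⟩
  · rw [norm_mul, norm_neg]
    have h1 : ‖κ‖ ≤ 1 + ε := by
      have h2 := norm_add_le (κ - 1) 1
      rw [sub_add_cancel, norm_one] at h2
      linarith
    calc ‖κ‖ * ‖β‖ ≤ (1 + ε) * (ε / 2) :=
          mul_le_mul h1 hβ1 (norm_nonneg _) (by linarith)
      _ ≤ ε := by nlinarith
  · have e1 : (fun i => κ * z i + -κ * β) = fun i => κ * z' i := by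
      funext i
      rw [hz']
      ring
    rw [e1]
    exact hhyp

end W973.CD
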